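import Mathlib

/-!
# Multiple zeta values and the motivic theorem
-/

set_option autoImplicit false

open MvPolynomial

namespace Pool.Agent.V7H32.MZ

/-- The numbers `d N` of Zagier's conjecture. -/
def d : ℕ → ℕ
  | 0 => 1
  | 1 => 0
  | 2 => 1
  | n + 3 => d (n + 1) + d n

/-- `D N = d 0 + ⋯ + d N`. -/
def D (N : ℕ) : ℕ := ∑ n ∈ Finset.range (N + 1), d n

/-- The multiple zeta value of the index `k`, the sum of the `∏ n_i ^ (-k_i)` over
`n_1 > ⋯ > n_r ≥ 1`. -/
noncomputable def mzv {r : ℕ} (k : Fin r → ℕ) : ℝ :=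
  ∑' n : {n : Fin r → ℕ // StrictAnti n ∧ ∀ i, 1 ≤ n i}, ∏ i, (1 / (n.1 i : ℝ)) ^ (k i)

/-- The index `k` is convergent and has weight `N`. -/
def IsIndex {r : ℕ} (k : Fin r → ℕ) (N : ℕ) : Prop :=
  (∀ i, 1 ≤ k i) ∧ (∀ h : 0 < r, 2 ≤ k ⟨0, h⟩) ∧ ∑ i, k i = N

/-- The `ℚ`-span `Z N` of all multiple zeta values of weight `N`. -/
noncomputable def Z (N : ℕ) : Submodule ℚ ℝ :=
  Submodule.span ℚ {x : ℝ | ∃ (r : ℕ) (k : Fin r → ℕ), IsIndex k N ∧ x = mzv k}

/-- The sum `Z 0 + ⋯ + Z N`. -/
noncomputable def ZZ (N : ℕ) : Submodule ℚ ℝ := ⨆ n ∈ Finset.range (N + 1), Z n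

/-- The values `ζ(n)` of the Riemann zeta function. -/
noncomputable def zeta (n : ℕ) : ℝ := ∑' k : ℕ, 1 / ((k : ℝ) + 1) ^ n

/-- **The motivic theorem** (Goncharov, Terasoma, Deligne-Goncharov, Brown). The algebra of the
motivic multiple zeta values is, as a graded algebra, a polynomial algebra in homogeneous generators
(one for each Lyndon word in the letters `f_3, f_5, f_7, ...`, and one generator `f_2`); the number of
monomials of weight `N` is `d N`, and the period map sends the part of weight `N` onto `Z N`. The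
generators can be chosen such that `ζ(2), ζ(3), ζ(5), ζ(7), ...` are among their periods. -/
structure Motivic where
  /-- the set of the generators -/
  ι : Type
  /-- the weights of the generators -/
  w : ι → ℕ
  /-- the periods of the generators -/
  z : ι → ℝ
  pos : ∀ i, 0 < w i
  rank : ∀ N, Module.rank ℚ (weightedHomogeneousSubmodule ℚ w N) = (d N : Cardinal)
  image : ∀ N, (weightedHomogeneousSubmodule ℚ w N).map (aeval z).toLinearMap = Z N
  gen : ∀ n, (n = 2 ∨ (3 ≤ n ∧ Odd n)) → ∃ i, w i = n ∧ z i = zeta n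

/-- The first half of Zagier's conjecture. -/
def DimensionHalf : Prop := ∀ N, Module.finrank ℚ (Z N) = d N

/-- Zagier's conjecture (Q1). -/
def Zagier : Prop := DimensionHalf ∧ iSupIndep Z

/-- All polynomial relations with rational coefficients between the periods of the generators are
multiples of the polynomial `F`. -/
def GeneratesRelations (M : Motivic) (F : MvPolynomial M.ι ℚ) : Prop :=
  ∀ P : MvPolynomial M.ι ℚ, aeval M.z P = 0 ↔ F ∣ P

/-- The greatest weight of a monomial of `F` is `m`. -/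
def HasTopWeight (M : Motivic) (F : MvPolynomial M.ι ℚ) (m : ℕ) : Prop :=
  weightedHomogeneousComponent M.w m F ≠ 0 ∧ ∀ n, m < n → weightedHomogeneousComponent M.w n F = 0

end Pool.Agent.V7H32.MZ
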