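import Pool.Agent.V7H32.MZ.Principal

/-!
# Dimensions
-/

set_option autoImplicit false

open MvPolynomial Module

namespace Pool.Agent.V7H32.MZ

/-! ### The numbers -/

lemma d_add_three (n : ℕ) : d (n + 3) = d (n + 1) + d n := rfl

lemma D_succ (N : ℕ) : D (N + 1) = D N + d (N + 1) := by
  rw [D, D, Finset.sum_range_succ]

lemma D_zero : D 0 = 1 := rfl

lemma D_pos (N : ℕ) : 0 < D N := by
  induction N with
  | zero => decide
  | succ N ih => rw [D_succ]; omega

lemma D_mono {a b : ℕ} (h : a ≤ b) : D a ≤ D b := by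
  induction b, h using Nat.le_induction with
  | base => exact le_rfl
  | succ b _ ih => rw [D_succ]; omega

lemma d_le_D (N : ℕ) : d N ≤ D N := by
  rw [D, Finset.sum_range_succ]
  exact Nat.le_add_left _ _

lemma D_succ_le (N : ℕ) : D (N + 1) ≤ 3 * D N := by
  have h : d (N + 1) ≤ 2 * D N := by
    rcases N with _ | _ | N
    · decide
    · decide
    · rw [d_add_three]
      have h1 := (d_le_D (N + 1)).trans (D_mono (Nat.le_succ (N + 1)))
      have h2 := (d_le_D N).trans (D_mono (show N ≤ N + 2 by omega))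
      have h3 : D (N + 1).succ = D (N + 2) := rfl
      rw [h3] at h1
      have h4 : D (N + 1 + 1) = D (N + 2) := rfl
      omega
  rw [D_succ]
  omega

lemma D_add_le (N m : ℕ) : D (N + m) ≤ 3 ^ m * D N := by
  induction m with
  | zero => simp
  | succ m ih =>
    calc D (N + (m + 1)) ≤ 3 * D (N + m) := D_succ_le _
      _ ≤ 3 * (3 ^ m * D N) := Nat.mul_le_mul_left _ ih
      _ = 3 ^ (m + 1) * D N := by ring

lemma d_pos (N : ℕ) : 0 < d (N + 2) := by
  induction N using Nat.strong_induction_on with
  | _ N ih =>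
    rcases N with _ | _ | N
    · decide
    · decide
    · have h1 := ih N (by omega)
      have h2 : d (N + 1 + 1 + 2) = d (N + 2) + d (N + 1) := rfl
      omega

lemma d_succ_le (N : ℕ) : d (N + 3) ≤ 2 * d (N + 2) := by
  induction N using Nat.strong_induction_on with
  | _ N ih =>
    rcases N with _ | _ | _ | N
    · decide
    · decide
    · decide
    · have h1 := ih N (by omega)
      have h2 := ih (N + 1) (by omega)
      have h3 : d (N + 1 + 1 + 1 + 3) = d (N + 1 + 3) + d (N + 3) := rfl
      have h4 : d (N + 1 + 1 + 1 + 2) = d (N + 1 + 2) + d (N + 2) := rfl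
      omega

lemma d_add_le (N m : ℕ) : d (N + 2 + m) ≤ 2 ^ m * d (N + 2) := by
  induction m with
  | zero => simp
  | succ m ih =>
    calc d (N + 2 + (m + 1)) = d (N + m + 3) := by congr 1; ring
      _ ≤ 2 * d (N + m + 2) := d_succ_le _
      _ = 2 * d (N + 2 + m) := by congr 2; ring
      _ ≤ 2 * (2 ^ m * d (N + 2)) := Nat.mul_le_mul_left _ ih
      _ = 2 ^ (m + 1) * d (N + 2) := by ring

/-! ### The spaces -/

variable (M : Motivic)

lemma finrank_V (N : ℕ) : finrank ℚ (V M.w N) = d N := finrank_eq_of_rank_eq (M.rank N)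

lemma finite_V (N : ℕ) : FiniteDimensional ℚ (V M.w N) := by
  rw [FiniteDimensional, ← rank_lt_aleph0_iff, M.rank N]
  exact Cardinal.natCast_lt_aleph0

lemma finite_W (N : ℕ) : FiniteDimensional ℚ (W M.w N) := by
  induction N with
  | zero => rw [W_zero]; exact finite_V M 0
  | succ N ih =>
    rw [W_succ]
    have := finite_V M (N + 1)
    exact Submodule.finiteDimensional_sup _ _

lemma finrank_W (N : ℕ) : finrank ℚ (W M.w N) = D N := by
  induction N with
  | zero => rw [W_zero, finrank_V]; rfl
  | succ N ih =>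
    have := finite_V M (N + 1)
    have := finite_W M N
    have h := Submodule.finrank_sup_add_finrank_inf_eq (W M.w N) (V M.w (N + 1))
    rw [← W_succ, W_inf, finrank_bot, ih, finrank_V] at h
    rw [D_succ]
    omega

/-- The period map. -/
noncomputable abbrev f : MvPolynomial M.ι ℚ →ₗ[ℚ] ℝ := (aeval M.z).toLinearMap

lemma ZZ_zero : ZZ 0 = Z 0 := by
  simp [ZZ]

lemma ZZ_succ (N : ℕ) : ZZ (N + 1) = ZZ N ⊔ Z (N + 1) := by
  unfold ZZ
  rw [Finset.range_add_one (n := N + 1), Finset.iSup_insert, sup_comm]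

lemma map_W (N : ℕ) : (W M.w N).map (f M) = ZZ N := by
  induction N with
  | zero => rw [W_zero, ZZ_zero]; exact M.image 0
  | succ N ih => rw [W_succ, Submodule.map_sup, ih, ZZ_succ]; congr 1; exact M.image (N + 1)

lemma finrank_map_add (U : Submodule ℚ (MvPolynomial M.ι ℚ)) [FiniteDimensional ℚ U] :
    finrank ℚ (U.map (f M)) + finrank ℚ (U ⊓ LinearMap.ker (f M) : Submodule ℚ _) =
      finrank ℚ U := by
  have h := LinearMap.finrank_range_add_finrank_ker ((f M).domRestrict U)
  rw [LinearMap.range_domRestrict, LinearMap.ker_domRestrict] at h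
  rw [← h]
  congr 1
  have h1 : Submodule.map U.subtype ((LinearMap.ker (f M)).submoduleOf U) =
      U ⊓ LinearMap.ker (f M) := by
    rw [Submodule.submoduleOf, Submodule.map_comap_subtype]
  rw [← h1]
  exact (LinearEquiv.finrank_eq (Submodule.equivMapOfInjective U.subtype U.injective_subtype _)).symm

end Pool.Agent.V7H32.MZ
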