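import Pool.Agent.V7H32.MZ.Poly

/-!
# Transcendence degree and kernels
-/

set_option autoImplicit false

open MvPolynomial

namespace Pool.Agent.V7H32.MZ

/-- An element of the kernel is transcendental over a subring on which the map is injective. -/
lemma transcendental_of_ker {A B : Type*} [CommRing A] [CommRing B] [IsDomain A] [Algebra ℚ A]
    [Algebra ℚ B] (π : A →ₐ[ℚ] B) (S : Subalgebra ℚ A) (hS : ∀ a ∈ S, π a = 0 → a = 0)
    {q : A} (hq : q ≠ 0) (hπ : π q = 0) : Transcendental S q := by
  rw [transcendental_iff]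
  intro p
  induction h : p.natDegree using Nat.strong_induction_on generalizing p with
  | _ n ih =>
    intro hp
    have h0 : p.coeff 0 = 0 := by
      have h1 : π (Polynomial.aeval q p) = 0 := by rw [hp, map_zero]
      rw [← Polynomial.divX_mul_X_add p, map_add, map_mul, Polynomial.aeval_X, Polynomial.aeval_C,
        map_add, map_mul, hπ, mul_zero, zero_add] at h1
      have h2 := hS (algebraMap S A (p.coeff 0)) (p.coeff 0).2 h1
      exact Subtype.ext h2
    have h1 : p = p.divX * Polynomial.X := by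
      conv_lhs => rw [← Polynomial.divX_mul_X_add p]
      rw [h0, Polynomial.C_0, add_zero]
    have h2 : Polynomial.aeval q p.divX = 0 := by
      rw [h1, map_mul, Polynomial.aeval_X] at hp
      exact (mul_eq_zero.1 hp).resolve_right hq
    rcases Nat.eq_zero_or_pos n with hn | hn
    · rw [Polynomial.eq_C_of_natDegree_eq_zero (h.trans hn), h0, Polynomial.C_0]
    · have h3 := ih p.divX.natDegree (by rw [Polynomial.natDegree_divX_eq_natDegree_tsub_one]; omega)
        p.divX rfl h2
      rw [h1, h3, zero_mul]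

/-- There are `n` algebraically independent elements. -/
def AI (A : Type*) [CommRing A] [Algebra ℚ A] (n : ℕ) : Prop :=
  ∃ x : Fin n → A, AlgebraicIndependent ℚ x

lemma AI_of_surjective {A B : Type*} [CommRing A] [CommRing B] [IsDomain A] [Algebra ℚ A]
    [Algebra ℚ B] (π : A →ₐ[ℚ] B) (hπ : Function.Surjective π) {q : A} (hq : q ≠ 0)
    (hq' : π q = 0) {n : ℕ} (h : AI B n) : AI A (n + 1) := by
  obtain ⟨b, hb⟩ := h
  choose a ha using fun i => hπ (b i)
  have hab : π ∘ a = b := funext ha
  have h1 : AlgebraicIndependent ℚ a := AlgebraicIndependent.of_comp π (by rwa [hab])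
  have h2 : Transcendental (Algebra.adjoin ℚ (Set.range a)) q := by
    refine transcendental_of_ker π _ (fun c hc h0 => ?_) hq hq'
    rw [Algebra.adjoin_range_eq_range_aeval] at hc
    obtain ⟨P, rfl⟩ := hc
    have h3 : aeval b P = 0 := by
      rw [← hab, ← h0]
      have : (aeval (π ∘ a) : MvPolynomial (Fin n) ℚ →ₐ[ℚ] B) = π.comp (aeval a) := by
        ext i
        simp
      rw [this]
      rfl
    have h4 : P = 0 := hb (by rw [h3, map_zero])
    rw [h4]
    exact map_zero _
  have h3 := (h1.option_iff_transcendental q).2 h2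
  exact ⟨_, h3.comp (finSuccEquiv n) (finSuccEquiv n).injective⟩

lemma AI_of_le_trdeg {A : Type} [CommRing A] [IsDomain A] [Algebra ℚ A] {n : ℕ}
    (h : (n : Cardinal) ≤ Algebra.trdeg ℚ A) : AI A n := by
  obtain ⟨s, hs⟩ := exists_isTranscendenceBasis ℚ A
  have h1 : (n : Cardinal) ≤ Cardinal.mk s := by
    rwa [hs.cardinalMk_eq_trdeg]
  rw [← Cardinal.mk_fin, Cardinal.le_def] at h1
  obtain ⟨e⟩ := h1
  exact ⟨_, hs.1.comp e e.injective⟩

lemma AI.le {A : Type} [CommRing A] [IsDomain A] [Algebra ℚ A] {n : ℕ} (h : AI A n) :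
    (n : Cardinal) ≤ Algebra.trdeg ℚ A := by
  obtain ⟨x, hx⟩ := h
  have := hx.cardinalMk_le_trdeg
  rwa [Cardinal.mk_fin] at this

end Pool.Agent.V7H32.MZ
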