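import Pool.Agent.V7H32.MZ.Graded

/-!
# The gap laws
-/

set_option autoImplicit false

open Module Polynomial Filter

namespace Pool.Agent.V7H32.MZ

variable (M : Motivic)

include M in
lemma Z_mul {a b : ℕ} {x y : ℝ} (hx : x ∈ Z a) (hy : y ∈ Z b) : x * y ∈ Z (a + b) := by
  rw [← M.image] at hx hy ⊢
  obtain ⟨P, hP, rfl⟩ := hx
  obtain ⟨Q, hQ, rfl⟩ := hy
  refine ⟨P * Q, ?_, ?_⟩
  · rw [SetLike.mem_coe, MvPolynomial.mem_weightedHomogeneousSubmodule] at hP hQ ⊢
    exact hP.mul hQ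
  · exact map_mul (MvPolynomial.aeval M.z) P Q

include M in
lemma B_mul {m N : ℕ} {p q : ℝ[X]} (hp : p ∈ B m) (hq : q ∈ B N) : p * q ∈ B (N + m) := by
  refine ⟨fun n => ?_, fun n hn => ?_⟩
  · rw [coeff_mul]
    refine Submodule.sum_mem _ fun ij hij => ?_
    have h := Finset.HasAntidiagonal.mem_antidiagonal.1 hij
    rw [← h]
    exact Z_mul M (hp.1 _) (hq.1 _)
  · rw [coeff_mul]
    refine Finset.sum_eq_zero fun ij hij => ?_
    have h := Finset.HasAntidiagonal.mem_antidiagonal.1 hij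
    rcases Nat.lt_or_ge m ij.1 with h1 | h1
    · rw [hp.2 _ h1, zero_mul]
    · rw [hq.2 _ (by omega), mul_zero]

include M in
/-- A relation produces many relations. -/
lemma S_add_le {m : ℕ} {F : ℝ[X]} (hF : F ∈ B m) (hF0 : F ≠ 0) (he : ev F = 0) (N : ℕ) :
    finrank ℚ (ZZ (N + m)) + S N ≤ S (N + m) := by
  rw [← finrank_ZZ_add M (N + m)]
  refine Nat.add_le_add_left ?_ _
  rw [← finrank_B M N]
  let μ : ℝ[X] →ₗ[ℚ] ℝ[X] := LinearMap.mulLeft ℚ F
  have hμ : Function.Injective μ := fun a b h => mul_left_cancel₀ hF0 h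
  rw [LinearEquiv.finrank_eq (Submodule.equivMapOfInjective μ hμ (B N))]
  have h0 : FiniteDimensional ℚ (B (N + m)) := finite_B M (N + m)
  have h1 : FiniteDimensional ℚ (B (N + m) ⊓ LinearMap.ker ev : Submodule ℚ _) :=
    Submodule.finiteDimensional_inf_left _ _
  refine Submodule.finrank_mono ?_
  rintro _ ⟨q, hq, rfl⟩
  refine ⟨B_mul M hF hq, ?_⟩
  have h2 : F.eval 1 = 0 := he
  change ev (F * q) = 0
  rw [ev_apply, eval_mul, h2, zero_mul]

include M in
lemma finrank_Z_le (N : ℕ) : finrank ℚ (Z N) ≤ d N := by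
  have := finite_V M N
  rw [← M.image, ← finrank_V M N]
  exact Submodule.finrank_map_le _ _

include M in
lemma S_le_D (N : ℕ) : S N ≤ D N := Finset.sum_le_sum fun n _ => finrank_Z_le M n

lemma one_mem_Z : (1 : ℝ) ∈ Z 0 := by
  refine Submodule.subset_span ⟨0, Fin.elim0, ⟨fun i => i.elim0, fun h => absurd h (lt_irrefl 0),
    by simp⟩, ?_⟩
  unfold mzv
  have : ∀ n : {n : Fin 0 → ℕ // StrictAnti n ∧ ∀ i, 1 ≤ n i}, 
      ∏ i, (1 / (n.1 i : ℝ)) ^ ((Fin.elim0 : Fin 0 → ℕ) i) = 1 := fun n => by simp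
  simp_rw [this]
  have hu : Unique {n : Fin 0 → ℕ // StrictAnti n ∧ ∀ i, 1 ≤ n i} :=
    { default := ⟨Fin.elim0, fun i => i.elim0, fun i => i.elim0⟩
      uniq := fun a => Subtype.ext (funext fun i => i.elim0) }
  rw [tsum_fintype, Fintype.sum_unique]

include M in
lemma S_pos (N : ℕ) : 0 < S N := by
  have h1 : 0 < finrank ℚ (Z 0) := by
    have := finite_Z M 0
    rw [Module.finrank_pos_iff_exists_ne_zero]
    exact ⟨⟨1, one_mem_Z⟩, fun h => one_ne_zero (congrArg Subtype.val h)⟩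
  refine lt_of_lt_of_le h1 ?_
  exact Finset.single_le_sum (f := fun n => finrank ℚ (Z n)) (fun n _ => Nat.zero_le _)
    (Finset.mem_range.2 (Nat.succ_pos N))

lemma D_le_pow (N : ℕ) : D N ≤ 3 ^ N := by
  have := D_add_le 0 N
  rwa [zero_add, D_zero, mul_one] at this

include M in
/-- The growth of `S` is slow infinitely often. -/
lemma S_growth (m : ℕ) (N₀ : ℕ) : ∃ N, N₀ ≤ N ∧ S (N + m) ≤ 4 ^ m * S N := by
  rcases Nat.eq_zero_or_pos m with rfl | hm
  · exact ⟨N₀, le_rfl, by simp⟩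
  by_contra hcon
  push Not at hcon
  have h1 (k : ℕ) : 4 ^ (m * k) ≤ S (N₀ + m * k) := by
    induction k with
    | zero => simpa using Nat.succ_le_of_lt (S_pos M N₀)
    | succ k ih =>
      have h2 := hcon (N₀ + m * k) (Nat.le_add_right _ _)
      calc 4 ^ (m * (k + 1)) = 4 ^ m * 4 ^ (m * k) := by rw [mul_add, pow_add]; ring
        _ ≤ 4 ^ m * S (N₀ + m * k) := Nat.mul_le_mul_left _ ih
        _ ≤ S (N₀ + m * k + m) := h2.le
        _ = S (N₀ + m * (k + 1)) := by congr 1; ring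
  have h2 (k : ℕ) : ((4 : ℝ) / 3) ^ k ≤ 3 ^ N₀ := by
    have h3 : 4 ^ (m * k) ≤ 3 ^ (N₀ + m * k) := (h1 k).trans ((S_le_D M _).trans (D_le_pow _))
    have h4 : (4 : ℝ) ^ (m * k) ≤ 3 ^ (N₀ + m * k) := by exact_mod_cast h3
    rw [pow_add] at h4
    have h5 : ((4 : ℝ) / 3) ^ (m * k) ≤ 3 ^ N₀ := by
      rw [div_pow, div_le_iff₀ (by positivity)]
      exact h4
    refine le_trans ?_ h5
    exact pow_le_pow_right₀ (by norm_num) (Nat.le_mul_of_pos_left k hm)
  obtain ⟨k, hk⟩ := pow_unbounded_of_one_lt ((3 : ℝ) ^ N₀) (show (1 : ℝ) < 4 / 3 by norm_num)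
  exact absurd (h2 k) (not_le.2 hk)

include M in
lemma indep_iff_finrank : iSupIndep Z ↔ ∀ N, finrank ℚ (ZZ N) = S N := by
  rw [indep_iff]
  refine forall_congr' fun N => ?_
  have h := finrank_ZZ_add M N
  have h0 : FiniteDimensional ℚ (B N) := finite_B M N
  have h1 : FiniteDimensional ℚ (B N ⊓ LinearMap.ker ev : Submodule ℚ _) :=
    Submodule.finiteDimensional_inf_left _ _
  rw [← Submodule.finrank_eq_zero]
  omega

include M in
/-- **The gap law for the direct sum.** -/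
theorem indep_iff_tendsto :
    iSupIndep Z ↔ Tendsto (fun N => (finrank ℚ (ZZ N) : ℝ) / S N) atTop (nhds 1) := by
  constructor
  · intro h
    have h1 : ∀ N, (finrank ℚ (ZZ N) : ℝ) / S N = 1 := fun N => by
      rw [(indep_iff_finrank M).1 h N]
      exact div_self (by exact_mod_cast (S_pos M N).ne')
    simp_rw [h1]
    exact tendsto_const_nhds
  · intro h
    by_contra hcon
    rw [indep_iff] at hcon
    push Not at hcon
    obtain ⟨m, hm⟩ := hcon
    obtain ⟨F, hF, hF0⟩ := Submodule.exists_mem_ne_zero_of_ne_bot hm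
    have h1 := S_add_le M hF.1 hF0 hF.2
    have h2 : ∀ᶠ N in atTop, 1 - (1 : ℝ) / (2 * 4 ^ m) < (finrank ℚ (ZZ N) : ℝ) / S N := by
      refine h.eventually_const_lt ?_
      have : (0 : ℝ) < 1 / (2 * 4 ^ m) := by positivity
      linarith
    obtain ⟨N₀, hN₀⟩ := eventually_atTop.1 h2
    obtain ⟨N, hN, hS⟩ := S_growth M m N₀
    have h3 := hN₀ (N + m) (by omega)
    have h4 : (0 : ℝ) < S (N + m) := by exact_mod_cast S_pos M (N + m)
    rw [lt_div_iff₀ h4] at h3
    have h5 : (finrank ℚ (ZZ (N + m)) : ℝ) + S N ≤ S (N + m) := by exact_mod_cast h1 N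
    have h6 : (S (N + m) : ℝ) ≤ 4 ^ m * S N := by exact_mod_cast hS
    have h7 : (S (N + m) : ℝ) / 4 ^ m ≤ S N := by
      rw [div_le_iff₀ (by positivity)]
      linarith
    have h8 : (1 : ℝ) / (2 * 4 ^ m) * S (N + m) = (S (N + m) : ℝ) / 4 ^ m / 2 := by
      field_simp
    have h9 : (0 : ℝ) < (S (N + m) : ℝ) / 4 ^ m := by positivity
    nlinarith

include M in
lemma zagier_iff_finrank : Zagier ↔ ∀ N, finrank ℚ (ZZ N) = D N := by
  constructor
  · rintro ⟨h1, h2⟩ N
    rw [(indep_iff_finrank M).1 h2 N]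
    exact Finset.sum_congr rfl fun n _ => h1 n
  · intro h
    have h1 : ∀ N, S N = D N := fun N => by
      refine le_antisymm (S_le_D M N) ?_
      rw [← h N]
      have := finrank_ZZ_add M N
      omega
    refine ⟨fun N => ?_, (indep_iff_finrank M).2 fun N => by rw [h N, h1 N]⟩
    rcases N with _ | N
    · have := h1 0
      simpa [S, D] using this
    · have h2 := h1 (N + 1)
      rw [S_succ, D_succ, h1 N] at h2
      omega

include M in
/-- **The gap law for Zagier's conjecture.** -/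
theorem zagier_iff_frequently :
    Zagier ↔ ∀ ε : ℝ, 0 < ε → ∃ᶠ N in atTop, (1 - ε) * D N ≤ finrank ℚ (ZZ N) := by
  constructor
  · intro h ε hε
    refine Frequently.of_forall fun N => ?_
    rw [(zagier_iff_finrank M).1 h N]
    have : (0 : ℝ) ≤ D N := Nat.cast_nonneg _
    nlinarith
  · intro h
    rw [zagier_iff_finrank M]
    by_contra hcon
    push Not at hcon
    obtain ⟨m, hm⟩ := hcon
    -- a relation
    have hker : W M.w m ⊓ LinearMap.ker (f M) ≠ ⊥ := by
      intro h0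
      have := finite_W M m
      have h1 := finrank_map_add M (W M.w m)
      rw [map_W, h0, finrank_bot, finrank_W, add_zero] at h1
      exact hm h1
    obtain ⟨F, hF, hF0⟩ := Submodule.exists_mem_ne_zero_of_ne_bot hker
    have h1 (N : ℕ) : finrank ℚ (ZZ (N + m)) + D N ≤ D (N + m) := by
      have h00 := finite_W M (N + m)
      have h0 : FiniteDimensional ℚ (W M.w (N + m) ⊓ LinearMap.ker (f M) : Submodule ℚ _) :=
        Submodule.finiteDimensional_inf_left _ _
      rw [← finrank_W M (N + m), ← finrank_map_add M (W M.w (N + m)), map_W]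
      refine Nat.add_le_add_left ?_ _
      rw [← finrank_W M N]
      let μ : MvPolynomial M.ι ℚ →ₗ[ℚ] MvPolynomial M.ι ℚ := LinearMap.mulLeft ℚ F
      have hμ : Function.Injective μ := fun a b h => mul_left_cancel₀ hF0 h
      rw [LinearEquiv.finrank_eq (Submodule.equivMapOfInjective μ hμ (W M.w N))]
      refine Submodule.finrank_mono ?_
      rintro _ ⟨Q, hQ, rfl⟩
      constructor
      · rw [SetLike.mem_coe, mem_W_iff]
        rcases eq_or_ne Q 0 with rfl | hQ0
        · rw [map_zero]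
          have : (0 : MvPolynomial M.ι ℚ) ∈ W M.w (N + m) := zero_mem _
          exact (mem_W_iff _).1 this
        · change top M.w (F * Q) ≤ N + m
          rw [top_mul M.w hF0 hQ0]
          have h2 := (mem_W_iff _).1 hF.1
          have h3 := (mem_W_iff _).1 (show Q ∈ W M.w N from hQ)
          omega
      · change MvPolynomial.aeval M.z (F * Q) = 0
        rw [map_mul, show MvPolynomial.aeval M.z F = 0 from hF.2, zero_mul]
    have h2 := (h (1 / (2 * 3 ^ m)) (by positivity)).forall_exists_of_atTop m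
    obtain ⟨N', hN', h3⟩ := h2
    obtain ⟨N, rfl⟩ := Nat.exists_eq_add_of_le' hN'
    have h4 : (0 : ℝ) < D (N + m) := by exact_mod_cast D_pos (N + m)
    have h5 : (finrank ℚ (ZZ (N + m)) : ℝ) + D N ≤ D (N + m) := by exact_mod_cast h1 N
    have h6 : (D (N + m) : ℝ) ≤ 3 ^ m * D N := by exact_mod_cast D_add_le N m
    have h7 : (D (N + m) : ℝ) / 3 ^ m ≤ D N := by
      rw [div_le_iff₀ (by positivity)]
      linarith
    have h8 : (1 : ℝ) / (2 * 3 ^ m) * D (N + m) = (D (N + m) : ℝ) / 3 ^ m / 2 := by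
      field_simp
    have h9 : (0 : ℝ) < (D (N + m) : ℝ) / 3 ^ m := by positivity
    nlinarith

end Pool.Agent.V7H32.MZ
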