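import Pool.Agent.V7H32.MZ.Dim

/-!
# The direct sum
-/

set_option autoImplicit false

open Module Polynomial

namespace Pool.Agent.V7H32.MZ

/-- The sum `dim Z 0 + ⋯ + dim Z N`. -/
noncomputable def S (N : ℕ) : ℕ := ∑ n ∈ Finset.range (N + 1), finrank ℚ (Z n)

lemma S_succ (N : ℕ) : S (N + 1) = S N + finrank ℚ (Z (N + 1)) := by
  rw [S, S, Finset.sum_range_succ]

/-- The polynomials of degree at most `N` whose `n`th coefficient lies in `Z n`. -/
noncomputable def B (N : ℕ) : Submodule ℚ ℝ[X] where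
  carrier := {p | (∀ n, p.coeff n ∈ Z n) ∧ ∀ n, N < n → p.coeff n = 0}
  zero_mem' := ⟨fun n => by rw [coeff_zero]; exact zero_mem _, fun n _ => coeff_zero n⟩
  add_mem' := fun {p q} hp hq => ⟨fun n => by rw [coeff_add]; exact add_mem (hp.1 n) (hq.1 n),
    fun n hn => by rw [coeff_add, hp.2 n hn, hq.2 n hn, add_zero]⟩
  smul_mem' := fun c p hp => ⟨fun n => by rw [coeff_smul]; exact Submodule.smul_mem _ c (hp.1 n),
    fun n hn => by rw [coeff_smul, hp.2 n hn, smul_zero]⟩

lemma mem_B {N : ℕ} {p : ℝ[X]} : p ∈ B N ↔ (∀ n, p.coeff n ∈ Z n) ∧ ∀ n, N < n → p.coeff n = 0 :=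
  Iff.rfl

/-- The monomials `a T ^ N`. -/
noncomputable def mon (N : ℕ) : ℝ →ₗ[ℚ] ℝ[X] := (monomial N : ℝ →ₗ[ℝ] ℝ[X]).restrictScalars ℚ

lemma mon_apply (N : ℕ) (a : ℝ) : mon N a = monomial N a := rfl

lemma mon_injective (N : ℕ) : Function.Injective (mon N) := monomial_injective N

/-- The value at `1`. -/
noncomputable def ev : ℝ[X] →ₗ[ℚ] ℝ := (Polynomial.leval (1 : ℝ)).restrictScalars ℚ

lemma ev_apply (p : ℝ[X]) : ev p = p.eval 1 := rfl

lemma ev_mon (N : ℕ) (a : ℝ) : ev (mon N a) = a := by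
  rw [ev_apply, mon_apply, eval_monomial, one_pow, mul_one]

lemma mon_mem {n N : ℕ} (h : n ≤ N) {a : ℝ} (ha : a ∈ Z n) : mon n a ∈ B N := by
  refine ⟨fun k => ?_, fun k hk => ?_⟩
  · rw [mon_apply, coeff_monomial]
    split_ifs with h1
    · rwa [← h1]
    · exact zero_mem _
  · rw [mon_apply, coeff_monomial, if_neg (by omega)]

lemma B_zero : B 0 = (Z 0).map (mon 0) := by
  ext p
  constructor
  · rintro ⟨h1, h2⟩
    refine ⟨p.coeff 0, h1 0, ?_⟩
    rw [mon_apply]
    ext n
    rw [coeff_monomial]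
    split_ifs with h
    · rw [← h]
    · exact (h2 n (by omega)).symm
  · rintro ⟨a, ha, rfl⟩
    exact mon_mem le_rfl ha

lemma B_succ (N : ℕ) : B (N + 1) = B N ⊔ (Z (N + 1)).map (mon (N + 1)) := by
  refine le_antisymm (fun p hp => ?_) (sup_le ?_ ?_)
  · have h1 : p - mon (N + 1) (p.coeff (N + 1)) ∈ B N := by
      refine ⟨fun n => ?_, fun n hn => ?_⟩
      · rw [coeff_sub]
        exact sub_mem (hp.1 n) ((mon_mem (le_refl (N + 1)) (hp.1 (N + 1))).1 n)
      · rw [coeff_sub, mon_apply, coeff_monomial]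
        split_ifs with h
        · rw [h, sub_self]
        · rw [hp.2 n (by omega), sub_zero]
    rw [← sub_add_cancel p (mon (N + 1) (p.coeff (N + 1)))]
    exact Submodule.add_mem_sup h1 ⟨_, hp.1 (N + 1), rfl⟩
  · exact fun p hp => ⟨hp.1, fun n hn => hp.2 n (by omega)⟩
  · rintro _ ⟨a, ha, rfl⟩
    exact mon_mem le_rfl ha

lemma B_inf (N : ℕ) : B N ⊓ (Z (N + 1)).map (mon (N + 1)) = ⊥ := by
  rw [eq_bot_iff]
  rintro _ ⟨h1, a, ha, rfl⟩
  have h2 := h1.2 (N + 1) (Nat.lt_succ_self N)
  rw [mon_apply, coeff_monomial, if_pos rfl] at h2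
  rw [h2]
  exact (Submodule.mem_bot ℚ).2 (map_zero _)

lemma ev_B (N : ℕ) : (B N).map ev = ZZ N := by
  have h (n : ℕ) : ((Z n).map (mon n)).map ev = Z n := by
    rw [← Submodule.map_comp]
    have : ev.comp (mon n) = LinearMap.id := LinearMap.ext fun a => ev_mon n a
    rw [this, Submodule.map_id]
  induction N with
  | zero => rw [B_zero, h, ZZ_zero]
  | succ N ih => rw [B_succ, Submodule.map_sup, ih, h, ZZ_succ]

variable (M : Motivic)

include M in
lemma finite_Z (N : ℕ) : FiniteDimensional ℚ (Z N) := by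
  rw [← M.image N]
  have := finite_V M N
  infer_instance

include M in
lemma finite_B (N : ℕ) : FiniteDimensional ℚ (B N) := by
  have hm (n : ℕ) : FiniteDimensional ℚ ((Z n).map (mon n)) := by
    have := finite_Z M n
    infer_instance
  induction N with
  | zero => rw [B_zero]; exact hm 0
  | succ N ih =>
    rw [B_succ]
    have := hm (N + 1)
    exact Submodule.finiteDimensional_sup _ _

include M in
lemma finrank_B (N : ℕ) : finrank ℚ (B N) = S N := by
  have hm (n : ℕ) : finrank ℚ ((Z n).map (mon n)) = finrank ℚ (Z n) :=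
    (LinearEquiv.finrank_eq (Submodule.equivMapOfInjective (mon n) (mon_injective n) _)).symm
  induction N with
  | zero => rw [B_zero, hm]; simp [S]
  | succ N ih =>
    have h0 : FiniteDimensional ℚ ((Z (N + 1)).map (mon (N + 1))) := by
      have := finite_Z M (N + 1)
      infer_instance
    have := finite_B M N
    have h := Submodule.finrank_sup_add_finrank_inf_eq (B N) ((Z (N + 1)).map (mon (N + 1)))
    rw [← B_succ, B_inf, finrank_bot, ih, hm] at h
    rw [S_succ]
    omega

/-- Rank and nullity. -/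
lemma finrank_map_add' {U' : Type} [AddCommGroup U'] [Module ℚ U'] (g : U' →ₗ[ℚ] ℝ)
    (U : Submodule ℚ U') [FiniteDimensional ℚ U] :
    finrank ℚ (U.map g) + finrank ℚ (U ⊓ LinearMap.ker g : Submodule ℚ _) =
      finrank ℚ U := by
  have h := LinearMap.finrank_range_add_finrank_ker (g.domRestrict U)
  rw [LinearMap.range_domRestrict, LinearMap.ker_domRestrict] at h
  rw [← h]
  congr 1
  have h1 : Submodule.map U.subtype ((LinearMap.ker g).submoduleOf U) =
      U ⊓ LinearMap.ker g := by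
    rw [Submodule.submoduleOf, Submodule.map_comap_subtype]
  rw [← h1]
  exact (LinearEquiv.finrank_eq (Submodule.equivMapOfInjective U.subtype U.injective_subtype _)).symm

include M in
lemma finrank_ZZ_add (N : ℕ) :
    finrank ℚ (ZZ N) + finrank ℚ (B N ⊓ LinearMap.ker ev : Submodule ℚ _) = S N := by
  have := finite_B M N
  rw [← ev_B, ← finrank_B M]
  exact finrank_map_add' ev (B N)

lemma ZZ_le_of_ne (N : ℕ) : ZZ N ≤ ⨆ j, ⨆ (_ : j ≠ N + 1), Z j := by
  rw [ZZ]
  refine iSup₂_le fun n hn => ?_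
  have : n ≠ N + 1 := by
    have := Finset.mem_range.1 hn
    omega
  exact le_iSup₂_of_le n this le_rfl

/-- The sum is direct iff there is no relation. -/
lemma indep_iff : iSupIndep Z ↔ ∀ N, B N ⊓ LinearMap.ker ev = ⊥ := by
  constructor
  · intro h N
    rw [eq_bot_iff]
    induction N with
    | zero =>
      rintro p ⟨h1, h2⟩
      rw [SetLike.mem_coe, B_zero] at h1
      obtain ⟨a, ha, rfl⟩ := h1
      have h3 : ev (mon 0 a) = 0 := h2
      rw [ev_mon] at h3
      rw [h3, map_zero]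
      exact zero_mem _
    | succ N ih =>
      rintro p ⟨h1, h2⟩
      rw [SetLike.mem_coe, B_succ] at h1
      obtain ⟨q, hq, _, ⟨a, ha, rfl⟩, rfl⟩ := Submodule.mem_sup.1 h1
      have h3 : ev (q + mon (N + 1) a) = 0 := h2
      rw [map_add, ev_mon] at h3
      have h4 : ev q ∈ ZZ N := by
        rw [← ev_B]
        exact ⟨q, hq, rfl⟩
      have h5 : a ∈ ZZ N := by
        have : a = -ev q := by linarith
        rw [this]
        exact neg_mem h4
      have h6 : a = 0 := by
        have := (h (N + 1)).le_bot ⟨ha, ZZ_le_of_ne N h5⟩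
        exact (Submodule.mem_bot ℚ).1 this
      rw [h6, add_zero] at h3
      rw [h6, map_zero, add_zero]
      exact ih ⟨hq, h3⟩
  · intro h i
    rw [Submodule.disjoint_def]
    intro x hx hx'
    rw [Submodule.mem_iSup_iff_exists_finsupp] at hx'
    obtain ⟨g, hg, hgx⟩ := hx'
    have hg' : ∀ j, g j ∈ Z j := fun j => (iSup_le fun _ => le_rfl : (⨆ (_ : j ≠ i), Z j) ≤ Z j) (hg j)
    have hgi : g i = 0 := by
      have := hg i
      simpa using this
    obtain ⟨N, hN⟩ : ∃ N, i ≤ N ∧ ∀ j ∈ g.support, j ≤ N :=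
      ⟨max i (g.support.sup id), le_max_left _ _, fun j hj =>
        (Finset.le_sup (f := id) hj).trans (le_max_right _ _)⟩
    have h1 : (∑ j ∈ g.support, mon j (g j)) - mon i x ∈ B N :=
      sub_mem (Submodule.sum_mem _ fun j hj => mon_mem (hN.2 j hj) (hg' j)) (mon_mem hN.1 hx)
    have h2 : (∑ j ∈ g.support, mon j (g j)) - mon i x ∈ LinearMap.ker ev := by
      rw [LinearMap.mem_ker, map_sub, map_sum, ev_mon, sub_eq_zero, ← hgx]
      exact Finset.sum_congr rfl fun j _ => ev_mon j (g j)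
    have h3 : (∑ j ∈ g.support, mon j (g j)) - mon i x = 0 := by
      have : _ ∈ B N ⊓ LinearMap.ker ev := ⟨h1, h2⟩
      rw [h N] at this
      exact (Submodule.mem_bot ℚ).1 this
    have h4 := congrArg (fun p => Polynomial.coeff p i) h3
    simp only [coeff_sub, finsetSum_coeff, mon_apply, coeff_monomial, coeff_zero, if_true] at h4
    rw [Finset.sum_eq_zero, zero_sub, neg_eq_zero] at h4
    · exact h4
    · intro j _
      split_ifs with hj
      · rw [hj, hgi]
      · rfl

end Pool.Agent.V7H32.MZ
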