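import Pool.Agent.V7H32.MZ.Gap

/-!
# One relation
-/

set_option autoImplicit false

open Module MvPolynomial Filter

namespace Pool.Agent.V7H32.MZ

variable (M : Motivic)

lemma finrank_Z_add (N : ℕ) :
    finrank ℚ (Z N) + finrank ℚ (V M.w N ⊓ LinearMap.ker (f M) : Submodule ℚ _) = d N := by
  have := finite_V M N
  rw [← M.image N, ← finrank_V M N]
  exact finrank_map_add M (V M.w N)

lemma dimensionHalf_iff_homInj : DimensionHalf ↔ HomInj M.w M.z := by
  have key (N : ℕ) : finrank ℚ (Z N) = d N ↔ V M.w N ⊓ LinearMap.ker (f M) = ⊥ := by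
    have h0 := finite_V M N
    have h1 : FiniteDimensional ℚ (V M.w N ⊓ LinearMap.ker (f M) : Submodule ℚ _) :=
      Submodule.finiteDimensional_inf_left _ _
    have h2 := finrank_Z_add M N
    rw [← Submodule.finrank_eq_zero]
    omega
  refine forall_congr' fun N => ?_
  rw [key, eq_bot_iff]
  constructor
  · intro h P hP h0
    exact (Submodule.mem_bot ℚ).1 (h ⟨hP, h0⟩)
  · rintro h P ⟨hP, h0⟩
    exact (Submodule.mem_bot ℚ).2 (h P hP h0)

include M in
/-- **The gap law for the dimensions.** -/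
theorem dimensionHalf_iff_frequently :
    DimensionHalf ↔ ∀ ε : ℝ, 0 < ε → ∃ᶠ N in atTop, (1 - ε) * d N ≤ finrank ℚ (Z N) := by
  constructor
  · intro h ε hε
    refine Frequently.of_forall fun N => ?_
    rw [h N]
    have : (0 : ℝ) ≤ d N := Nat.cast_nonneg _
    nlinarith
  · intro h
    rw [dimensionHalf_iff_homInj M]
    by_contra hcon
    unfold HomInj at hcon
    push Not at hcon
    obtain ⟨m, F, hF, he, hF0⟩ := hcon
    have h1 (N : ℕ) : finrank ℚ (Z (N + m)) + d N ≤ d (N + m) := by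
      have h00 := finite_V M (N + m)
      have h0 : FiniteDimensional ℚ (V M.w (N + m) ⊓ LinearMap.ker (f M) : Submodule ℚ _) :=
        Submodule.finiteDimensional_inf_left _ _
      rw [← finrank_Z_add M (N + m)]
      refine Nat.add_le_add_left ?_ _
      rw [← finrank_V M N]
      let μ : MvPolynomial M.ι ℚ →ₗ[ℚ] MvPolynomial M.ι ℚ := LinearMap.mulLeft ℚ F
      have hμ : Function.Injective μ := fun a b h => mul_left_cancel₀ hF0 h
      rw [LinearEquiv.finrank_eq (Submodule.equivMapOfInjective μ hμ (V M.w N))]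
      refine Submodule.finrank_mono ?_
      rintro _ ⟨Q, hQ, rfl⟩
      constructor
      · change F * Q ∈ V M.w (N + m)
        rw [add_comm]
        rw [SetLike.mem_coe, mem_weightedHomogeneousSubmodule] at hQ
        rw [mem_weightedHomogeneousSubmodule] at hF ⊢
        exact hF.mul hQ
      · change aeval M.z (F * Q) = 0
        rw [map_mul, he, zero_mul]
    have h2 := (h (1 / (2 * 2 ^ m)) (by positivity)).forall_exists_of_atTop (m + 2)
    obtain ⟨N', hN', h3⟩ := h2
    obtain ⟨N, rfl⟩ : ∃ N, N' = N + 2 + m := ⟨N' - 2 - m, by omega⟩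
    have h4 : (0 : ℝ) < d (N + 2 + m) := by
      have := d_pos (N + m)
      rw [show N + m + 2 = N + 2 + m by ring] at this
      exact_mod_cast this
    have h5 : (finrank ℚ (Z (N + 2 + m)) : ℝ) + d (N + 2) ≤ d (N + 2 + m) := by
      exact_mod_cast h1 (N + 2)
    have h6 : (d (N + 2 + m) : ℝ) ≤ 2 ^ m * d (N + 2) := by exact_mod_cast d_add_le N m
    have h7 : (d (N + 2 + m) : ℝ) / 2 ^ m ≤ d (N + 2) := by
      rw [div_le_iff₀ (by positivity)]
      linarith
    have h8 : (1 : ℝ) / (2 * 2 ^ m) * d (N + 2 + m) = (d (N + 2 + m) : ℝ) / 2 ^ m / 2 := by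
      field_simp
    have h9 : (0 : ℝ) < (d (N + 2 + m) : ℝ) / 2 ^ m := by positivity
    nlinarith

lemma zagier_iff_injective : Zagier ↔ ∀ P : MvPolynomial M.ι ℚ, aeval M.z P = 0 → P = 0 := by
  rw [zagier_iff_finrank M]
  have key (N : ℕ) : finrank ℚ (ZZ N) = D N ↔ W M.w N ⊓ LinearMap.ker (f M) = ⊥ := by
    have h0 := finite_W M N
    have h1 : FiniteDimensional ℚ (W M.w N ⊓ LinearMap.ker (f M) : Submodule ℚ _) :=
      Submodule.finiteDimensional_inf_left _ _
    have h2 := finrank_map_add M (W M.w N)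
    rw [map_W, finrank_W] at h2
    rw [← Submodule.finrank_eq_zero]
    omega
  constructor
  · intro h P hP
    obtain ⟨N, hN⟩ := exists_mem_W M.w P
    have h1 : P ∈ W M.w N ⊓ LinearMap.ker (f M) := ⟨hN, hP⟩
    rw [(key N).1 (h N)] at h1
    exact (Submodule.mem_bot ℚ).1 h1
  · intro h N
    rw [key, eq_bot_iff]
    rintro P ⟨_, hP⟩
    exact (Submodule.mem_bot ℚ).2 (h P hP)

/-- The dimension formula. -/
lemma finrank_of_generates {F : MvPolynomial M.ι ℚ} (hF0 : F ≠ 0) (hF : GeneratesRelations M F)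
    (N : ℕ) : finrank ℚ (ZZ N) + (if top M.w F ≤ N then D (N - top M.w F) else 0) = D N := by
  have h0 := finite_W M N
  have h2 := finrank_map_add M (W M.w N)
  rw [map_W, finrank_W] at h2
  rw [← h2]
  congr 1
  split_ifs with hN
  · let μ : MvPolynomial M.ι ℚ →ₗ[ℚ] MvPolynomial M.ι ℚ := LinearMap.mulLeft ℚ F
    have hμ : Function.Injective μ := fun a b h => mul_left_cancel₀ hF0 h
    have h1 : W M.w N ⊓ LinearMap.ker (f M) = (W M.w (N - top M.w F)).map μ := by
      ext P
      constructor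
      · rintro ⟨h3, h4⟩
        obtain ⟨Q, rfl⟩ := (hF P).1 h4
        refine ⟨Q, ?_, rfl⟩
        rw [SetLike.mem_coe, mem_W_iff]
        rcases eq_or_ne Q 0 with rfl | hQ
        · exact (mem_W_iff _).1 (zero_mem _)
        · have h5 := (mem_W_iff _).1 (show F * Q ∈ W M.w N from h3)
          rw [top_mul M.w hF0 hQ] at h5
          omega
      · rintro ⟨Q, h3, rfl⟩
        refine ⟨?_, (hF _).2 ⟨Q, rfl⟩⟩
        change F * Q ∈ W M.w N
        rw [mem_W_iff]
        rcases eq_or_ne Q 0 with rfl | hQ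
        · rw [mul_zero]
          exact (mem_W_iff _).1 (zero_mem _)
        · have h5 := (mem_W_iff _).1 (show Q ∈ W M.w (N - top M.w F) from h3)
          rw [top_mul M.w hF0 hQ]
          omega
    rw [h1, ← LinearEquiv.finrank_eq (Submodule.equivMapOfInjective μ hμ _), finrank_W]
  · symm
    rw [Submodule.finrank_eq_zero, eq_bot_iff]
    rintro P ⟨h3, h4⟩
    obtain ⟨Q, rfl⟩ := (hF P).1 h4
    rcases eq_or_ne Q 0 with rfl | hQ
    · rw [mul_zero]
      exact zero_mem _
    · have h5 := (mem_W_iff _).1 (show F * Q ∈ W M.w N from h3)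
      rw [top_mul M.w hF0 hQ] at h5
      omega

/-- The one circuit. -/
lemma independent_iff {σ : Type} {F : MvPolynomial M.ι ℚ} (hF0 : F ≠ 0)
    (hF : GeneratesRelations M F) (g : σ → M.ι) (hg : Function.Injective g) :
    AlgebraicIndependent ℚ (M.z ∘ g) ↔ ¬ ∀ i ∈ F.vars, i ∈ Set.range g := by
  constructor
  · intro h hv
    obtain ⟨F', rfl⟩ := exists_rename_eq_of_vars_subset_range F g hg (fun i hi => hv i hi)
    have h1 : aeval M.z (rename g F') = 0 := (hF _).2 dvd_rfl
    rw [aeval_rename] at h1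
    have h2 : F' = 0 := h (by rw [h1, map_zero])
    exact hF0 (by rw [h2, map_zero])
  · intro hv
    by_contra hcon
    rw [algebraicIndependent_iff] at hcon
    push Not at hcon
    obtain ⟨P, hP, hP0⟩ := hcon
    refine hv fun i hi => ?_
    have h1 : F ∣ rename g P := (hF _).1 (by rw [aeval_rename]; exact hP)
    obtain ⟨H, hH⟩ := h1
    have h2 : rename g P ≠ 0 := fun h => hP0 (rename_injective g hg (by rw [h, map_zero]))
    have hH0 : H ≠ 0 := by
      rintro rfl
      rw [mul_zero] at hH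
      exact h2 hH
    have h3 : i ∈ (rename g P).vars := by
      rw [mem_vars_iff_degreeOf_ne_zero] at hi ⊢
      rw [hH, degreeOf_mul_eq hF0 hH0]
      omega
    obtain ⟨j, _, hj⟩ := mem_vars_rename g P h3
    exact ⟨j, hj⟩

lemma vars_nonempty {F : MvPolynomial M.ι ℚ} (hF0 : F ≠ 0) (hF : GeneratesRelations M F) :
    F.vars.Nonempty := by
  rw [Finset.nonempty_iff_ne_empty]
  intro h
  rw [vars_eq_empty_iff_eq_C] at h
  have h1 : aeval M.z F = 0 := (hF _).2 dvd_rfl
  rw [h, aeval_C] at h1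
  have h2 : F.coeff 0 = 0 := (map_eq_zero (algebraMap ℚ ℝ)).1 h1
  exact hF0 (by rw [h, h2, C_0])

/-- The indices `2, 3, 5, 7, 9, …`. -/
def A : Set ℕ := {n | n = 2 ∨ (3 ≤ n ∧ Odd n)}

include M in
theorem zeta_circuit (h : DimensionHalf) :
    AlgebraicIndependent ℚ (fun n : A => zeta n) ∨
      ∃ C : Finset ℕ, C.Nonempty ∧ (C : Set ℕ) ⊆ A ∧ ∀ T : Set ℕ, T ⊆ A →
        (AlgebraicIndependent ℚ (fun n : T => zeta n) ↔ ¬ (C : Set ℕ) ⊆ T) := by
  classical
  choose g hg using fun n : A => M.gen n n.2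
  have hginj : Function.Injective g := fun a b hab => by
    have h1 := (hg a).1
    rw [hab, (hg b).1] at h1
    exact Subtype.ext h1.symm
  have hz : M.z ∘ g = fun n : A => zeta n := funext fun n => (hg n).2
  by_cases hZ : ∀ P : MvPolynomial M.ι ℚ, aeval M.z P = 0 → P = 0
  · left
    rw [← hz, algebraicIndependent_iff]
    intro P hP
    rw [← aeval_rename] at hP
    exact rename_injective g hginj (by rw [hZ _ hP, map_zero])
  · push Not at hZ
    obtain ⟨P, hP, hP0⟩ := hZ
    obtain ⟨F, hFp, hF⟩ := principal M.w M.z ((dimensionHalf_iff_homInj M).1 h) ⟨P, hP0, hP⟩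
    have hF' : GeneratesRelations M F := hF
    by_cases hr : ∀ i ∈ F.vars, i ∈ Set.range g
    · right
      refine ⟨F.vars.image M.w, ?_, ?_, ?_⟩
      · exact (vars_nonempty M hFp.ne_zero hF').image _
      · intro n hn
        rw [Finset.mem_coe, Finset.mem_image] at hn
        obtain ⟨i, hi, rfl⟩ := hn
        obtain ⟨a, rfl⟩ := hr i hi
        rw [(hg a).1]
        exact a.2
      · intro T hT
        have h1 : Function.Injective fun n : T => g ⟨n, hT n.2⟩ := fun a b hab => by
          have := hginj hab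
          exact Subtype.ext (congrArg (fun x : A => (x : ℕ)) this)
        have h2 := independent_iff M hFp.ne_zero hF' (fun n : T => g ⟨n, hT n.2⟩) h1
        have h3 : (M.z ∘ fun n : T => g ⟨n, hT n.2⟩) = fun n : T => zeta n :=
          funext fun n => (hg _).2
        rw [h3] at h2
        rw [h2, not_iff_not]
        constructor
        · intro h4 n hn
          rw [Finset.mem_coe, Finset.mem_image] at hn
          obtain ⟨i, hi, rfl⟩ := hn
          obtain ⟨a, ha⟩ := h4 i hi
          rw [← ha, (hg _).1]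
          exact a.2
        · intro h4 i hi
          obtain ⟨a, rfl⟩ := hr i hi
          have h5 : (a : ℕ) ∈ T := by
            have h6 : M.w (g a) ∈ (F.vars.image M.w : Finset ℕ) := Finset.mem_image_of_mem _ hi
            have h7 := h4 (Finset.mem_coe.2 h6)
            rwa [(hg a).1] at h7
          exact ⟨⟨a, h5⟩, rfl⟩
    · left
      have := (independent_iff M hFp.ne_zero hF' g hginj).2 hr
      rwa [hz] at this

theorem main (M : Motivic) :
    -- (1) Q1 and nearly maximal dimensions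
    (Zagier ↔ ∀ ε : ℝ, 0 < ε → ∃ᶠ N in atTop, (1 - ε) * D N ≤ finrank ℚ (ZZ N)) ∧
    -- (2) the first half
    (DimensionHalf ↔ ∀ ε : ℝ, 0 < ε → ∃ᶠ N in atTop, (1 - ε) * d N ≤ finrank ℚ (Z N)) ∧
    -- (3) the second half
    (iSupIndep Z ↔ Tendsto (fun N => (finrank ℚ (ZZ N) : ℝ) /
      (∑ n ∈ Finset.range (N + 1), finrank ℚ (Z n) : ℕ)) atTop (nhds 1)) ∧
    -- (4) one relation
    (DimensionHalf → Zagier ∨ ∃ (F : MvPolynomial M.ι ℚ) (m : ℕ),
      Prime F ∧ (∀ n, ¬ IsWeightedHomogeneous M.w F n) ∧ HasTopWeight M F m ∧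
      GeneratesRelations M F ∧
      (∀ N, finrank ℚ (ZZ N) + (if m ≤ N then D (N - m) else 0) = D N) ∧
      ∀ T : Set M.ι, AlgebraicIndependent ℚ (fun i : T => M.z i) ↔ ¬ (F.vars : Set M.ι) ⊆ T) ∧
    -- (5) the values of the zeta function
    (DimensionHalf → AlgebraicIndependent ℚ (fun n : A => zeta n) ∨
      ∃ C : Finset ℕ, C.Nonempty ∧ (C : Set ℕ) ⊆ A ∧ ∀ T : Set ℕ, T ⊆ A →
        (AlgebraicIndependent ℚ (fun n : T => zeta n) ↔ ¬ (C : Set ℕ) ⊆ T)) := by
  refine ⟨zagier_iff_frequently M, dimensionHalf_iff_frequently M, indep_iff_tendsto M, ?_,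
    zeta_circuit M⟩
  intro h
  by_cases hZ : ∀ P : MvPolynomial M.ι ℚ, aeval M.z P = 0 → P = 0
  · exact Or.inl ((zagier_iff_injective M).2 hZ)
  right
  push Not at hZ
  obtain ⟨P, hP, hP0⟩ := hZ
  have hinj := (dimensionHalf_iff_homInj M).1 h
  obtain ⟨F, hFp, hF⟩ := principal M.w M.z hinj ⟨P, hP0, hP⟩
  have hF' : GeneratesRelations M F := hF
  refine ⟨F, top M.w F, hFp, ?_, (top_eq_iff M.w hFp.ne_zero).1 rfl, hF',
    finrank_of_generates M hFp.ne_zero hF', ?_⟩
  · intro n hn
    exact hFp.ne_zero (hinj n F ((mem_weightedHomogeneousSubmodule ℚ M.w n F).2 hn)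
      ((hF F).2 dvd_rfl))
  · intro T
    have h1 := independent_iff M hFp.ne_zero hF' (Subtype.val : T → M.ι) Subtype.val_injective
    rw [Subtype.range_coe] at h1
    exact h1

end Pool.Agent.V7H32.MZ
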