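import Pool.Agent.V7H32.MZ.Defs

/-!
# Weights of polynomials
-/

set_option autoImplicit false

open MvPolynomial

namespace Pool.Agent.V7H32.MZ

variable {ι : Type} (w : ι → ℕ)

/-- The homomorphism `x_i ↦ x_i T ^ (w i)`. -/
noncomputable def Phi : MvPolynomial ι ℚ →ₐ[ℚ] Polynomial (MvPolynomial ι ℚ) :=
  aeval fun i => Polynomial.C (X i) * Polynomial.X ^ w i

lemma Phi_monomial (m : ι →₀ ℕ) (c : ℚ) :
    Phi w (monomial m c) = Polynomial.monomial (Finsupp.weight w m) (monomial m c) := by
  unfold Phi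
  rw [aeval_monomial]
  have h1 : (algebraMap ℚ (Polynomial (MvPolynomial ι ℚ))) c = Polynomial.C (C c) := rfl
  rw [h1]
  have h2 : (m.prod fun i k => (Polynomial.C (X i : MvPolynomial ι ℚ) * Polynomial.X ^ w i) ^ k) =
      Polynomial.C (m.prod fun i k => (X i : MvPolynomial ι ℚ) ^ k) *
        Polynomial.X ^ (Finsupp.weight w m) := by
    rw [Finsupp.prod, Finsupp.prod, map_prod]
    have h3 : Finsupp.weight w m = ∑ i ∈ m.support, m i * w i := by
      rw [Finsupp.weight_apply, Finsupp.sum]
      rfl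
    rw [h3, ← Finset.prod_pow_eq_pow_sum, ← Finset.prod_mul_distrib]
    refine Finset.prod_congr rfl fun i _ => ?_
    rw [mul_pow, ← Polynomial.C_pow, ← pow_mul, mul_comm (w i)]
  rw [h2, ← mul_assoc, ← Polynomial.C_mul, ← Polynomial.C_mul_X_pow_eq_monomial]
  congr 2
  rw [monomial_eq]

lemma coeff_Phi (P : MvPolynomial ι ℚ) (n : ℕ) :
    (Phi w P).coeff n = weightedHomogeneousComponent w n P := by
  classical
  induction P using MvPolynomial.induction_on' with
  | monomial m c =>
    rw [Phi_monomial, Polynomial.coeff_monomial]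
    split_ifs with h
    · rw [(isWeightedHomogeneous_monomial w m c h).weightedHomogeneousComponent_same]
    · rw [(isWeightedHomogeneous_monomial w m c rfl).weightedHomogeneousComponent_ne n
        fun e => h e.symm]
  | add p q hp hq => rw [map_add, Polynomial.coeff_add, hp, hq, map_add]

lemma eval_Phi (P : MvPolynomial ι ℚ) : (Phi w P).eval 1 = P := by
  have h : ((Polynomial.aeval (1 : MvPolynomial ι ℚ)).restrictScalars ℚ).comp (Phi w) =
      AlgHom.id ℚ _ := by
    ext i
    simp [Phi]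
  have := congrArg (fun f => f P) h
  simpa [Polynomial.aeval_def] using this

lemma Phi_injective : Function.Injective (Phi w) := fun P Q h => by
  rw [← eval_Phi w P, ← eval_Phi w Q, h]

lemma Phi_ne_zero {P : MvPolynomial ι ℚ} (h : P ≠ 0) : Phi w P ≠ 0 := fun h' =>
  h (Phi_injective w (by rw [h', map_zero]))

/-- The top weight. -/
noncomputable def top (P : MvPolynomial ι ℚ) : ℕ := (Phi w P).natDegree

lemma top_mul {P Q : MvPolynomial ι ℚ} (hP : P ≠ 0) (hQ : Q ≠ 0) :
    top w (P * Q) = top w P + top w Q := by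
  unfold top
  rw [map_mul, Polynomial.natDegree_mul (Phi_ne_zero w hP) (Phi_ne_zero w hQ)]

/-- The polynomials of weight at most `N`. -/
def W (N : ℕ) : Submodule ℚ (MvPolynomial ι ℚ) where
  carrier := {P | ∀ n, N < n → weightedHomogeneousComponent w n P = 0}
  zero_mem' := fun n _ => map_zero _
  add_mem' := fun {P Q} hP hQ n hn => by rw [map_add, hP n hn, hQ n hn, add_zero]
  smul_mem' := fun c P hP n hn => by rw [map_smul, hP n hn, smul_zero]

lemma mem_W {N : ℕ} {P : MvPolynomial ι ℚ} :
    P ∈ W w N ↔ ∀ n, N < n → weightedHomogeneousComponent w n P = 0 := Iff.rfl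

lemma mem_W_iff {N : ℕ} {P : MvPolynomial ι ℚ} : P ∈ W w N ↔ top w P ≤ N := by
  rw [mem_W, top, Polynomial.natDegree_le_iff_coeff_eq_zero]
  refine forall_congr' fun n => ?_
  rw [coeff_Phi]

lemma top_eq_iff {P : MvPolynomial ι ℚ} {m : ℕ} (hP : P ≠ 0) : top w P = m ↔
    weightedHomogeneousComponent w m P ≠ 0 ∧
      ∀ n, m < n → weightedHomogeneousComponent w n P = 0 := by
  constructor
  · rintro rfl
    refine ⟨?_, (mem_W_iff w).2 le_rfl⟩
    rw [← coeff_Phi]
    exact Polynomial.leadingCoeff_ne_zero.2 (Phi_ne_zero w hP)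
  · rintro ⟨h1, h2⟩
    refine le_antisymm ((mem_W_iff w).1 h2) ?_
    rw [← coeff_Phi] at h1
    exact Polynomial.le_natDegree_of_ne_zero h1

/-- The homogeneous polynomials of weight `N`. -/
noncomputable abbrev V (N : ℕ) : Submodule ℚ (MvPolynomial ι ℚ) := weightedHomogeneousSubmodule ℚ w N

lemma V_le_W {n N : ℕ} (h : n ≤ N) : V w n ≤ W w N := by
  intro P hP m hm
  exact IsWeightedHomogeneous.weightedHomogeneousComponent_ne m
    ((mem_weightedHomogeneousSubmodule ℚ w n P).1 hP) (by omega)

lemma W_mono {n N : ℕ} (h : n ≤ N) : W w n ≤ W w N := fun _ hP m hm => hP m (by omega)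

lemma W_zero : W w 0 = V w 0 := by
  refine le_antisymm (fun P hP => ?_) (V_le_W w le_rfl)
  have h : P = weightedHomogeneousComponent w 0 P := by
    rw [← eval_Phi w P]
    conv_lhs => rw [Polynomial.eq_C_of_natDegree_le_zero ((mem_W_iff w).1 hP)]
    rw [Polynomial.eval_C, coeff_Phi, eval_Phi]
  rw [h]
  exact weightedHomogeneousComponent_mem w P 0

lemma W_succ (N : ℕ) : W w (N + 1) = W w N ⊔ V w (N + 1) := by
  refine le_antisymm (fun P hP => ?_) (sup_le (W_mono w (Nat.le_succ N)) (V_le_W w le_rfl))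
  have h1 : weightedHomogeneousComponent w (N + 1) P ∈ V w (N + 1) :=
    weightedHomogeneousComponent_mem w P (N + 1)
  have h2 : P - weightedHomogeneousComponent w (N + 1) P ∈ W w N := by
    intro n hn
    rw [map_sub]
    rcases Nat.lt_or_ge (N + 1) n with h | h
    · rw [hP n h, IsWeightedHomogeneous.weightedHomogeneousComponent_ne n
        ((mem_weightedHomogeneousSubmodule ℚ w _ _).1 h1) (by omega), sub_zero]
    · have : n = N + 1 := by omega
      subst this
      rw [IsWeightedHomogeneous.weightedHomogeneousComponent_same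
        ((mem_weightedHomogeneousSubmodule ℚ w _ _).1 h1), sub_self]
  rw [← sub_add_cancel P (weightedHomogeneousComponent w (N + 1) P)]
  exact Submodule.add_mem_sup h2 h1

lemma W_inf (N : ℕ) : W w N ⊓ V w (N + 1) = ⊥ := by
  rw [eq_bot_iff]
  rintro P ⟨h1, h2⟩
  have h3 := h1 (N + 1) (Nat.lt_succ_self N)
  rw [IsWeightedHomogeneous.weightedHomogeneousComponent_same
    ((mem_weightedHomogeneousSubmodule ℚ w _ _).1 h2)] at h3
  rw [h3]
  exact Submodule.zero_mem _

lemma exists_mem_W (P : MvPolynomial ι ℚ) : ∃ N, P ∈ W w N := ⟨top w P, (mem_W_iff w).2 le_rfl⟩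

/-- A polynomial is the sum of its homogeneous components. -/
lemma sum_comp (P : MvPolynomial ι ℚ) {N : ℕ} (hP : P ∈ W w N) :
    P = ∑ n ∈ Finset.range (N + 1), weightedHomogeneousComponent w n P := by
  conv_lhs => rw [← eval_Phi w P]
  rw [Polynomial.eval_eq_sum_range' (n := N + 1) (Nat.lt_succ_of_le ((mem_W_iff w).1 hP))]
  refine Finset.sum_congr rfl fun n _ => ?_
  rw [coeff_Phi, one_pow, mul_one]

end Pool.Agent.V7H32.MZ
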