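import Pool.Agent.V7H32.MZ.Drop

/-!
# The relations are multiples of one relation
-/

set_option autoImplicit false

open MvPolynomial

namespace Pool.Agent.V7H32.MZ

/-- There is no homogeneous relation. -/
def HomInj {σ : Type} (w : σ → ℕ) (z : σ → ℝ) : Prop :=
  ∀ n, ∀ P ∈ V w n, aeval z P = 0 → P = 0

section Finite

variable {σ : Type} (w : σ → ℕ) (z : σ → ℝ)

/-- The algebra generated by the periods. -/
noncomputable abbrev E : Subalgebra ℚ ℝ := (aeval z : MvPolynomial σ ℚ →ₐ[ℚ] ℝ).range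

/-- The period map. -/
noncomputable abbrev per : MvPolynomial σ ℚ →ₐ[ℚ] E z := (aeval z).rangeRestrict

lemma per_eq_zero {P : MvPolynomial σ ℚ} : per z P = 0 ↔ aeval z P = 0 :=
  ⟨fun h => congrArg Subtype.val h, fun h => Subtype.ext h⟩

lemma theta_injective (h : HomInj w z) :
    Function.Injective ((Polynomial.mapAlgHom (per z)).comp (Phi w)) := by
  rw [injective_iff_map_eq_zero]
  intro P hP
  have h1 : Phi w P = 0 := by
    ext1 n
    rw [coeff_Phi, Polynomial.coeff_zero]
    refine h n _ (weightedHomogeneousComponent_mem w P n) ?_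
    rw [← per_eq_zero, ← coeff_Phi]
    have h2 := congrArg (fun Q => Polynomial.coeff Q n) hP
    simpa [Polynomial.coeff_map] using h2
  exact Phi_injective w (by rw [h1, map_zero])

lemma card_le [Finite σ] (h : HomInj w z) :
    (Nat.card σ : Cardinal) ≤ Algebra.trdeg ℚ (E z) + 1 := by
  have h1 : Algebra.trdeg ℚ (MvPolynomial σ ℚ) ≤ Algebra.trdeg ℚ (Polynomial (E z)) :=
    trdeg_le_of_injective _ (theta_injective w z h)
  rw [MvPolynomial.trdeg_of_isDomain, Cardinal.lift_id] at h1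
  have hf : FaithfulSMul ℚ (E z) :=
    (faithfulSMul_iff_algebraMap_injective ℚ (E z)).2 (algebraMap ℚ (E z)).injective
  have h2 : Algebra.trdeg ℚ (E z) + Algebra.trdeg (E z) (Polynomial (E z)) =
      Algebra.trdeg ℚ (Polynomial (E z)) := trdeg_add_eq ℚ (E z)
  rw [Polynomial.trdeg_of_isDomain] at h2
  rw [h2]
  rwa [Nat.cast_card]

lemma dvd_of_prime [Finite σ] (h : HomInj w z) {F G : MvPolynomial σ ℚ} (hF : Prime F)
    (hF0 : aeval z F = 0) (hG0 : aeval z G = 0) : F ∣ G := by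
  by_contra hFG
  have : (Ideal.span {F}).IsPrime := (Ideal.span_singleton_prime hF.ne_zero).2 hF
  have h1 := card_le w z h
  obtain ⟨c, hc⟩ : ∃ c : ℕ, Nat.card σ = c := ⟨_, rfl⟩
  rcases c with _ | c
  · -- no variables
    have : IsEmpty σ := by
      rcases (Nat.card_eq_zero).1 hc with h | h
      · exact h
      · exact absurd h (not_infinite_iff_finite.2 ‹_›)
    refine hFG ?_
    have hF1 : IsUnit F := by
      rw [eq_C_of_isEmpty F]
      refine IsUnit.map C (IsUnit.mk0 _ fun h0 => hF.ne_zero ?_)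
      rw [eq_C_of_isEmpty F, h0, C_0]
    exact hF1.dvd
  · rw [hc] at h1
    have h2 : (c : Cardinal) ≤ Algebra.trdeg ℚ (E z) := by
      rw [Nat.cast_succ] at h1
      exact Cardinal.add_one_le_add_one_iff.1 h1
    have h3 := AI_of_le_trdeg h2
    -- first drop
    let π₂ : (MvPolynomial σ ℚ ⧸ Ideal.span {F}) →ₐ[ℚ] E z :=
      Ideal.Quotient.liftₐ (Ideal.span {F}) (per z) (by
        intro a ha
        rw [Ideal.mem_span_singleton] at ha
        obtain ⟨b, rfl⟩ := ha
        rw [map_mul, (per_eq_zero z).2 hF0, zero_mul])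
    have h4 : AI (MvPolynomial σ ℚ ⧸ Ideal.span {F}) (c + 1) := by
      refine AI_of_surjective π₂ ?_ (q := Ideal.Quotient.mk _ G) ?_ ?_ h3
      · intro y
        obtain ⟨x, hx⟩ := (aeval z : MvPolynomial σ ℚ →ₐ[ℚ] ℝ).rangeRestrict_surjective y
        exact ⟨Ideal.Quotient.mk _ x, hx⟩
      · rwa [Ne, Ideal.Quotient.eq_zero_iff_mem, Ideal.mem_span_singleton]
      · exact (per_eq_zero z).2 hG0
    have h5 : AI (MvPolynomial σ ℚ) (c + 2) := by
      refine AI_of_surjective (Ideal.Quotient.mkₐ ℚ (Ideal.span {F})) ?_ hF.ne_zero ?_ h4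
      · exact Ideal.Quotient.mkₐ_surjective ℚ _
      · exact Ideal.Quotient.eq_zero_iff_mem.2 (Ideal.mem_span_singleton_self F)
    have h6 := h5.le
    rw [MvPolynomial.trdeg_of_isDomain, Cardinal.lift_id, ← Nat.cast_card, hc] at h6
    have h7 := Nat.cast_le.1 h6
    omega

end Finite

/-- A family is the restriction of a bigger one. -/
lemma HomInj.comp {σ τ : Type} {w : τ → ℕ} {z : τ → ℝ} (h : HomInj w z) (f : σ → τ)
    (hf : Function.Injective f) : HomInj (w ∘ f) (z ∘ f) := by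
  intro n P hP h0
  have h1 : rename f P ∈ V w n := by
    rw [mem_weightedHomogeneousSubmodule] at hP ⊢
    intro m hm
    obtain ⟨u, rfl, hu⟩ := coeff_rename_ne_zero f P m hm
    rw [← hP hu]
    rw [Finsupp.weight_apply, Finsupp.weight_apply, Finsupp.sum_mapDomain_index]
    · rfl
    · intro a
      exact zero_smul _ _
    · intro a b c
      exact add_smul _ _ _
  have h2 := h n _ h1 (by rw [aeval_rename]; exact h0)
  exact rename_injective f hf (by rw [h2, map_zero])

/-- **Principality.** -/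
theorem principal {ι : Type} (w : ι → ℕ) (z : ι → ℝ) (h : HomInj w z)
    (hne : ∃ P : MvPolynomial ι ℚ, P ≠ 0 ∧ aeval z P = 0) :
    ∃ F : MvPolynomial ι ℚ, Prime F ∧ ∀ P : MvPolynomial ι ℚ, aeval z P = 0 ↔ F ∣ P := by
  classical
  have hp : (RingHom.ker (aeval z : MvPolynomial ι ℚ →ₐ[ℚ] ℝ)).IsPrime := RingHom.ker_isPrime _
  obtain ⟨P, hP, hP0⟩ := hne
  have hb : RingHom.ker (aeval z : MvPolynomial ι ℚ →ₐ[ℚ] ℝ) ≠ ⊥ := by
    intro hb
    have : P ∈ RingHom.ker (aeval z : MvPolynomial ι ℚ →ₐ[ℚ] ℝ) := hP0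
    rw [hb] at this
    exact hP this
  obtain ⟨F, hF0, hF⟩ := hp.exists_mem_prime_of_ne_bot hb
  refine ⟨F, hF, fun G => ⟨fun hG => ?_, ?_⟩⟩
  · obtain ⟨s, F', G', rfl, rfl⟩ := exists_finset_rename₂ F G
    have hF' : Prime F' := (prime_rename_iff (σ := ι) (s : Set ι)).1 hF
    have h1 := h.comp (Subtype.val : s → ι) Subtype.val_injective
    have h2 : aeval (z ∘ (Subtype.val : s → ι)) F' = 0 := by
      rw [← aeval_rename]
      exact hF0
    have h3 : aeval (z ∘ (Subtype.val : s → ι)) G' = 0 := by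
      rw [← aeval_rename]
      exact hG
    exact map_dvd _ (dvd_of_prime _ _ h1 hF' h2 h3)
  · rintro ⟨H, rfl⟩
    rw [map_mul, show aeval z F = 0 from hF0, zero_mul]

end Pool.Agent.V7H32.MZ
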