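import Pool.Agent.V7H32.MZ.Main
import Pool.Agent.H340R2.LW

/-!
# The values of the zeta function
-/

set_option autoImplicit false

open Module MvPolynomial Filter

namespace Pool.Agent.V7H32.MZ

lemma zeta_two : zeta 2 = Real.pi ^ 2 / 6 := by
  have h := hasSum_zeta_two
  have h1 := h.tsum_eq
  rw [h.summable.tsum_eq_zero_add] at h1
  rw [← h1, zeta]
  simp

lemma transcendental_zeta_two : Transcendental ℚ (zeta 2) := by
  have h : Transcendental ℚ (Real.pi ^ 2) :=
    Pool.Agent.H340R2.LW.transcendental_pi.pow (by norm_num)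
  intro h1
  refine h ?_
  have h2 : Real.pi ^ 2 = algebraMap ℚ ℝ 6 * zeta 2 := by
    rw [zeta_two]
    simp
    ring
  rw [h2]
  exact (isAlgebraic_algebraMap (6 : ℚ)).mul h1

variable (M : Motivic)

include M in
theorem one_missing (h : DimensionHalf) :
    ∃ k : ℕ, 3 ≤ k ∧ Odd k ∧ AlgebraicIndependent ℚ (fun n : (A \ {k} : Set ℕ) => zeta n) := by
  rcases zeta_circuit M h with h1 | ⟨C, hC0, hCA, hC⟩
  · refine ⟨3, le_rfl, by decide, ?_⟩
    exact h1.comp (fun n : (A \ {3} : Set ℕ) => (⟨n, n.2.1⟩ : A)) fun a b hab =>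
      Subtype.ext (congrArg (fun x : A => (x : ℕ)) hab)
  · have h2 : ¬ (C : Set ℕ) ⊆ {2} := by
      rw [← hC {2} (by
        rintro _ rfl
        exact Or.inl rfl)]
      rw [algebraicIndependent_unique_type_iff]
      exact transcendental_zeta_two
    obtain ⟨k, hk, hk2⟩ := Set.not_subset.1 h2
    have h3 : 3 ≤ k ∧ Odd k := by
      rcases hCA hk with h | h
      · exact absurd h hk2
      · exact h
    refine ⟨k, h3.1, h3.2, ?_⟩
    rw [hC _ Set.sdiff_subset]
    intro h4
    exact (h4 hk).2 rfl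

end Pool.Agent.V7H32.MZ
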